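import Pool.Agent.MP_a382a5_co.Mg.Lower

/-!
The explicit family for the lower bound.
-/

namespace Pool.Agent.MP_a382a5_co

open Filter Topology

variable {V : Type*} [NormedAddCommGroup V] [InnerProductSpace ℝ V]

theorem construct {I : Type} [Fintype I] (i₀ : I) (e₀ e₁ : V) (h₀ : ‖e₀‖ = 1) (h₁ : ‖e₁‖ = 1)
    (h₀₁ : inner ℝ e₀ e₁ = 0) (N : I → ℕ) (hN : Function.Injective N) (K : ℕ)
    (hN1 : ∀ i, 1 ≤ N i) (hNK : ∀ i, N i ≤ K) (F : I → V) (hF : ∀ i, ‖F i‖ = 1)
    (hF₀ : ∀ i, inner ℝ e₀ (F i) = 0) (hF₁ : ∀ i, inner ℝ e₁ (F i) = 0)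
    (hinf : ∀ x s : V, ¬ ∀ i, 0 < inner ℝ (F i) (x + (10 * (N i : ℝ)) • s))
    (hmin : ∀ i, ∃ x s : V, inner ℝ e₁ x = 0 ∧ inner ℝ e₁ s = 0 ∧
      ∀ j, j ≠ i → 0 < inner ℝ (F j) (x + (10 * (N j : ℝ)) • s)) :
    ∃ U : Finset V, Sep U ∧ (∀ T ⊆ U, T.card < 2 + 2 * Fintype.card I → HasT T) ∧ ¬ HasT U := by
  classical
  have h₁₀ : inner ℝ e₁ e₀ = 0 := by rw [real_inner_comm, h₀₁]
  have i₀₀ : inner ℝ e₀ e₀ = 1 := by rw [real_inner_self_eq_norm_sq, h₀]; norm_num
  have i₁₁ : inner ℝ e₁ e₁ = 1 := by rw [real_inner_self_eq_norm_sq, h₁]; norm_num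
  have hF₁' : ∀ i, inner ℝ (F i) e₁ = 0 := fun i => by rw [real_inner_comm, hF₁]
  have hK : (1 : ℝ) ≤ K := by exact_mod_cast (hN1 i₀).trans (hNK i₀)
  set τ : ℝ := 1 / (20 * K) with hτ
  have τ0 : 0 < τ := by positivity
  have τ1 : τ ≤ 1 / 20 := by
    rw [hτ]; apply one_div_le_one_div_of_le <;> linarith
  set T : I → ℝ := fun i => 10 * (N i : ℝ) with hT
  have T1 : ∀ i, 10 ≤ T i := fun i => by
    have : (1 : ℝ) ≤ N i := by exact_mod_cast hN1 i
    simp only [hT]; linarith
  have T2 : ∀ i, τ * T i ≤ 1 / 2 := fun i => by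
    have : (N i : ℝ) ≤ K := by exact_mod_cast hNK i
    simp only [hT, hτ]
    rw [div_mul_eq_mul_div, div_le_iff₀ (by positivity)]
    linarith
  have T3 : ∀ i j, i ≠ j → 10 ≤ |T i - T j| := fun i j hij => by
    have hne : N i ≠ N j := fun e => hij (hN e)
    simp only [hT]
    rcases lt_or_gt_of_ne hne with h | h
    · have : (N i : ℝ) + 1 ≤ N j := by exact_mod_cast h
      rw [le_abs]; right; linarith
    · have : (N j : ℝ) + 1 ≤ N i := by exact_mod_cast h
      rw [le_abs]; left; linarith
  set C : ℝ := (1 - τ ^ 2) / (1 + τ ^ 2) with hC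
  set S : ℝ := 2 * τ / (1 + τ ^ 2) with hS
  have p0 : 0 < 1 + τ ^ 2 := by positivity
  have C1 : C < 1 := by rw [hC, div_lt_one p0]; nlinarith
  have C2 : 19 / 20 ≤ C := by rw [hC, le_div_iff₀ p0]; nlinarith
  have S0 : 0 < S := by positivity
  have SC : S = τ * (1 + C) := by rw [hS, hC]; field_simp; ring
  have CS : C ^ 2 + S ^ 2 = 1 := by rw [hS, hC]; field_simp; ring
  let ι : V ≃ₗᵢ[ℝ] V := (ℝ ∙ (e₀ - τ • e₁))ᗮ.reflection
  have hι : ∀ (t a : ℝ) (y : V), inner ℝ e₀ y = 0 → inner ℝ e₁ y = 0 →
      ι (t • e₀ + a • e₁ + y) = (-C * t + S * a) • e₀ + (S * t + C * a) • e₁ + y := by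
    intro t a y y0 y1
    have n1 : ‖e₀ - τ • e₁‖ ^ 2 = 1 + τ ^ 2 := by
      rw [← real_inner_self_eq_norm_sq]
      simp only [inner_sub_left, inner_sub_right, inner_smul_left, inner_smul_right, i₀₀, i₁₁, h₀₁,
        h₁₀, conj_trivial]
      ring
    have n2 : inner ℝ (e₀ - τ • e₁) (t • e₀ + a • e₁ + y) = t - τ * a := by
      simp only [inner_sub_left, inner_add_right, inner_smul_left, inner_smul_right, i₀₀, i₁₁, h₀₁,
        h₁₀, y0, y1, conj_trivial]
      ring
    simp only [ι]
    rw [Submodule.reflection_orthogonal_apply, Submodule.reflection_singleton_apply, n2]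
    simp only [RCLike.ofReal_real_eq_id, id]
    rw [n1]
    have e1 : -C * t + S * a = t - 2 * ((t - τ * a) / (1 + τ ^ 2)) := by
      rw [hC, hS]; field_simp; ring
    have e2 : S * t + C * a = a + 2 * ((t - τ * a) / (1 + τ ^ 2)) * τ := by
      rw [hC, hS]; field_simp; ring
    rw [e1, e2]
    module
  let tt : Bool ⊕ (Bool × I) → ℝ := fun j => match j with
    | .inl true => τ
    | .inl false => -τ
    | .inr (false, i) => T i
    | .inr (true, i) => -C * T i + S * (-(3 / 5))
  let aa : Bool ⊕ (Bool × I) → ℝ := fun j => match j with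
    | .inl true => 1
    | .inl false => -1
    | .inr (false, _) => -(3 / 5)
    | .inr (true, i) => S * T i + C * (-(3 / 5))
  let yy : Bool ⊕ (Bool × I) → V := fun j => match j with
    | .inl _ => 0
    | .inr (_, i) => (4 / 5 : ℝ) • F i
  let sw : Bool ⊕ (Bool × I) → Bool ⊕ (Bool × I) := fun j => match j with
    | .inl b => .inl b
    | .inr (b, i) => .inr (!b, i)
  let P : Bool ⊕ (Bool × I) → Prop := fun j => match j with
    | .inl _ => True
    | .inr (b, _) => b = false
  have y0 : ∀ j, inner ℝ e₀ (yy j) = 0 := by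
    rintro (_ | ⟨_, i⟩) <;> simp [yy, inner_smul_right, hF₀]
  have y1 : ∀ j, inner ℝ e₁ (yy j) = 0 := by
    rintro (_ | ⟨_, i⟩) <;> simp [yy, inner_smul_right, hF₁]
  obtain ⟨c, hc⟩ : ∃ c : Bool ⊕ (Bool × I) → V, ∀ j, c j = tt j • e₀ + aa j • e₁ + yy j :=
    ⟨_, fun _ => rfl⟩
  have ct : ∀ j, inner ℝ e₀ (c j) = tt j := fun j => by
    simp only [hc, inner_add_right, inner_smul_right, i₀₀, h₀₁, y0]; ring
  have co : ∀ j, off 0 e₀ (c j) = aa j • e₁ + yy j := fun j => by
    rw [off, sub_zero, ct]; simp only [hc]; abel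
  have cn : ∀ j, ‖off 0 e₀ (c j)‖ ^ 2 = aa j ^ 2 + ‖yy j‖ ^ 2 := fun j => by
    rw [co, norm_add_sq_real, inner_smul_left, y1, norm_smul, h₁, Real.norm_eq_abs, mul_one, sq_abs]
    ring
  have yn : ∀ b i, ‖yy (.inr (b, i))‖ ^ 2 = 16 / 25 := fun b i => by
    simp only [yy]; rw [norm_smul, hF]; norm_num
  have ci : ∀ j (x : V), inner ℝ (off 0 e₀ (c j)) x = aa j * inner ℝ e₁ x + inner ℝ (yy j) x :=
    fun j x => by rw [co, inner_add_left, inner_smul_left]; rfl
  have neg : ∀ i, -C * T i + S * (-(3 / 5)) ≤ -(19 / 2) := fun i => by nlinarith [T1 i]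
  have key := schema c ι sw P e₀ h₀ (.inl true) (.inl false) (.inr (false, i₀)) ?_ ?_ rfl rfl
    trivial ?_ ?_ ?_ ?_ ?_ ?_ ?_ ?_ ?_
  · simpa [Fintype.card_sum, Fintype.card_prod] using key
  · intro j
    rw [hc, hc, hι _ _ _ (y0 j) (y1 j)]
    rcases j with (_ | _) | ⟨_ | _, i⟩
    · have e1 : -C * -τ + S * -1 = -τ := by rw [SC]; ring
      have e2 : S * -τ + C * -1 = -1 := by rw [hS, hC]; field_simp; ring
      simp only [tt, aa, yy, sw, e1, e2]
    · have e1 : -C * τ + S * 1 = τ := by rw [SC]; ring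
      have e2 : S * τ + C * 1 = 1 := by rw [hS, hC]; field_simp; ring
      simp only [tt, aa, yy, sw, e1, e2]
    · rfl
    · have e1 : -C * (-C * T i + S * (-(3 / 5))) + S * (S * T i + C * (-(3 / 5))) = T i := by
        linear_combination (T i) * CS
      have e2 : S * (-C * T i + S * (-(3 / 5))) + C * (S * T i + C * (-(3 / 5))) = -(3 / 5) := by
        linear_combination (-(3 / 5)) * CS
      simp only [tt, aa, yy, sw, e1, e2, Bool.not_true]
  · rintro (_ | ⟨_, i⟩) <;> simp [sw]
  · rintro (_ | ⟨_ | _, i⟩) <;> simp [sw, P]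
  · have := normsq_sub h₀ 0 (c (.inl false)) (c (.inl true))
    rw [inner_sub_right, ct, ct, co, co] at this
    simp only [tt, aa, yy, add_zero] at this
    rw [← sub_smul, norm_smul, h₁, Real.norm_eq_abs, mul_one, sq_abs] at this
    rw [dist_eq_norm]
    refine lt_of_pow_lt_pow_left₀ 2 (norm_nonneg _) ?_
    nlinarith
  · rw [inner_sub_right, ct, ct]; simp only [tt]; linarith
  · rw [inner_sub_right, ct, ct]; simp only [tt, sw, Bool.not_false]; linarith [neg i₀, T1 i₀]
  · intro i j hij
    rw [inner_sub_right, ct, ct]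
    rcases i with (_ | _) | ⟨_ | _, i⟩ <;> rcases j with (_ | _) | ⟨_ | _, j⟩ <;>
      simp only [tt, le_abs]
    · exact (hij rfl).elim
    · simp
    · right; right; right; linarith [T1 j]
    · right; right; left; linarith [neg j]
    · simp
    · exact (hij rfl).elim
    · right; right; right; linarith [T1 j]
    · right; right; left; linarith [neg j]
    · right; right; left; linarith [T1 i]
    · right; right; left; linarith [T1 i]
    · right; right
      have := T3 i j (by rintro rfl; exact hij rfl)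
      rcases le_abs.mp this with h | h
      · left; linarith
      · right; linarith
    · right; right; left; linarith [T1 i, neg j]
    · right; right; right; linarith [neg i]
    · right; right; right; linarith [neg i]
    · right; right; right; linarith [neg i, T1 j]
    · right; right
      have := T3 i j (by rintro rfl; exact hij rfl)
      rcases le_abs.mp this with h | h
      · right; nlinarith
      · left; nlinarith
  · rintro ((_ | _) | ⟨b, i⟩) hj
    · rw [cn]; simp [aa, yy]
    · rw [cn]; simp [aa, yy]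
    · obtain rfl : b = false := hj
      rw [cn, yn false i]; simp only [aa]; norm_num
  · rintro (_ | ⟨_ | _, i⟩) hj
    · exact (hj trivial).elim
    · exact (hj rfl).elim
    · rw [cn, yn true i]
      simp only [aa]
      have k1 : 0 < S * T i := mul_pos S0 (by linarith [T1 i])
      have k2 : S * T i ≤ (1 + C) / 2 := by rw [SC]; nlinarith [T2 i]
      nlinarith
  · rintro ⟨x, s, h⟩
    have a1 := h (.inl true) trivial
    have a2 := h (.inl false) trivial
    rw [ci, ct] at a1 a2
    simp only [aa, yy, tt, inner_zero_left, inner_add_right, inner_smul_right] at a1 a2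
    have a3 : 0 < inner ℝ e₁ s := by
      have : 0 < τ * inner ℝ e₁ s := by linarith
      exact (mul_pos_iff_of_pos_left τ0).mp this
    refine hinf x s fun i => ?_
    have a4 := h (.inr (false, i)) rfl
    rw [ci, ct] at a4
    simp only [aa, yy, tt, inner_smul_left, conj_trivial] at a4
    have a5 : 0 < inner ℝ e₁ (x + T i • s) := by
      rw [inner_add_right, inner_smul_right]; nlinarith [T1 i]
    linarith
  · rintro ((_ | _) | ⟨b, i⟩) hj
    · refine ⟨e₁, (-(1 / (2 * τ))) • e₁, ?_⟩
      rintro ((_ | _) | ⟨b, j⟩) hj hne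
      · exact (hne rfl).elim
      · rw [ci, ct]
        simp only [aa, yy, tt, inner_zero_left, inner_add_right, inner_smul_right, i₁₁]
        have : τ * (-(1 / (2 * τ)) * 1) = -(1 / 2) := by field_simp
        rw [this]; norm_num
      · obtain rfl : b = false := hj
        rw [ci, ct]
        simp only [aa, yy, tt, inner_smul_left, inner_add_right, inner_smul_right, i₁₁, hF₁']
        have : 1 < T j * (1 / (2 * τ)) := by
          rw [mul_one_div, lt_div_iff₀ (by positivity)]; linarith only [T1 j, τ1]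
        linarith only [this]
    · refine ⟨-e₁, 0, ?_⟩
      rintro ((_ | _) | ⟨b, j⟩) hj hne
      · rw [ci, ct]
        simp [aa, yy, h₁]
      · exact (hne rfl).elim
      · obtain rfl : b = false := hj
        rw [ci, ct]
        simp [aa, yy, h₁, inner_smul_left, hF₁']
    · obtain rfl : b = false := hj
      obtain ⟨x, s, x1, s1, hxs⟩ := hmin i
      have e : ∀ᶠ ε in 𝓝[>] (0 : ℝ), ∀ j, j ≠ i →
          0 < 4 / 5 * inner ℝ (F j) (x + T j • s) + ε * (-(3 / 5) * T j) := by
        rw [eventually_all]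
        intro j
        by_cases hij : j = i
        · exact Eventually.of_forall fun _ k => (k hij).elim
        · filter_upwards [eventually_pos_add
            (show 0 < 4 / 5 * inner ℝ (F j) (x + T j • s) by linarith [hxs j hij])
            (-(3 / 5) * T j)] with ε k _ using k
      obtain ⟨ε, hε, hε0⟩ := (e.and self_mem_nhdsWithin).exists
      have hε0 : 0 < ε := hε0
      refine ⟨x, s + ε • e₁, ?_⟩
      rintro ((_ | _) | ⟨b, j⟩) hj hne
      · rw [ci, ct]
        simp only [aa, yy, tt, inner_zero_left, inner_add_right, inner_smul_right, i₁₁, x1, s1]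
        nlinarith [mul_pos τ0 hε0]
      · rw [ci, ct]
        simp only [aa, yy, tt, inner_zero_left, inner_add_right, inner_smul_right, i₁₁, x1, s1]
        nlinarith [mul_pos τ0 hε0]
      · obtain rfl : b = false := hj
        have := hε j (by rintro rfl; exact hne rfl)
        rw [ci, ct]
        simp only [aa, yy, tt, inner_smul_left, inner_add_right, inner_smul_right, i₁₁, hF₁', x1,
          s1, conj_trivial] at this ⊢
        linarith

lemma real_feas {m : ℕ} (i₀ : Option (Fin m × Bool)) : ∃ p s : Fin m → ℝ,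
    (none ≠ i₀ → 0 < ∑ j, (p j + 10 * s j)) ∧
    (∀ j, some (j, false) ≠ i₀ → p j + (20 * (j : ℝ) + 20) * s j < 0) ∧
    (∀ j, some (j, true) ≠ i₀ → 0 < p j + (20 * (j : ℝ) + 30) * s j) := by
  classical
  set M : ℝ := ∑ j : Fin m, (20 * (j : ℝ) + 15) with hM
  have M0 : 0 ≤ M := Finset.sum_nonneg fun j _ => by positivity
  have sum : ∀ (j₀ : Fin m) (p s : Fin m → ℝ), (∀ j, p j + 10 * s j =
      -(20 * (j : ℝ) + 15) + if j = j₀ then M + 1 else 0) → 0 < ∑ j, (p j + 10 * s j) := by
    intro j₀ p s h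
    simp only [h, Finset.sum_add_distrib, Finset.sum_neg_distrib, Finset.sum_ite_eq',
      Finset.mem_univ, if_true]
    rw [← Finset.sum_add_distrib, ← hM]
    linarith
  rcases i₀ with _ | ⟨j₀, _ | _⟩
  · exact ⟨fun j => -(20 * (j : ℝ) + 25), fun _ => 1, fun h => (h rfl).elim,
      fun j _ => by linarith, fun j _ => by linarith⟩
  · refine ⟨fun j => -(20 * (j : ℝ) + 25) + if j = j₀ then M + 1 else 0, fun _ => 1,
      fun _ => sum j₀ _ _ fun j => by ring, fun j hj => ?_, fun j _ => ?_⟩
    · beta_reduce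
      rw [if_neg (by rintro rfl; exact hj rfl)]; linarith
    · beta_reduce
      split_ifs <;> linarith
  · refine ⟨fun j => -(20 * (j : ℝ) + 25) + if j = j₀ then 3 * (M + 1) else 0,
      fun j => 1 - if j = j₀ then (M + 1) / 5 else 0,
      fun _ => sum j₀ _ _ fun j => by split_ifs <;> ring, fun j _ => ?_,
      fun j hj => ?_⟩
    · have : (0 : ℝ) ≤ j := by positivity
      beta_reduce
      split_ifs <;> nlinarith
    · beta_reduce
      rw [if_neg (by rintro rfl; exact hj rfl), if_neg (by rintro rfl; exact hj rfl)]; linarith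

theorem lower {m : ℕ} (hm : 1 ≤ m) {E : Fin (m + 2) → V} (hE : Orthonormal ℝ E) :
    ∃ U : Finset V, Sep U ∧ (∀ T ⊆ U, T.card < 4 * m + 4 → HasT T) ∧ ¬ HasT U := by
  classical
  have hI := orthonormal_iff_ite.mp hE
  let f : Fin m → V := fun j => E j.succ.succ
  have hf : Orthonormal ℝ f :=
    hE.comp (fun j : Fin m => j.succ.succ) ((Fin.succ_injective _).comp (Fin.succ_injective _))
  have f0 : ∀ j, inner ℝ (E 0) (f j) = 0 := fun j => by
    simp only [f]; rw [hI, if_neg (Fin.succ_ne_zero _).symm]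
  have f1 : ∀ j, inner ℝ (E 1) (f j) = 0 := fun j => by
    simp only [f]
    rw [hI, if_neg]
    intro e
    have := congrArg Fin.val e
    simp at this
  have m0 : (0 : ℝ) < m := by exact_mod_cast hm
  set κ : ℝ := (√m)⁻¹ with hκ
  have κ0 : 0 < κ := by positivity
  let F : Option (Fin m × Bool) → V := fun i => match i with
    | none => ∑ j, κ • f j
    | some (j, false) => -f j
    | some (j, true) => f j
  let N : Option (Fin m × Bool) → ℕ := fun i => match i with
    | none => 1
    | some (j, false) => 2 * j + 2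
    | some (j, true) => 2 * j + 3
  have key := construct (I := Option (Fin m × Bool)) none (E 0) (E 1) (hE.1 0) (hE.1 1)
    (by rw [hI, if_neg (by simp)]) N ?_ (2 * m + 3) ?_ ?_ F ?_ ?_ ?_ ?_ ?_
  · have e : 2 + 2 * Fintype.card (Option (Fin m × Bool)) = 4 * m + 4 := by
      simp [Fintype.card_option, Fintype.card_prod]; ring
    rwa [e] at key
  · rintro (_ | ⟨i, _ | _⟩) (_ | ⟨j, _ | _⟩) h <;> simp only [N] at h <;>
      first | rfl | omega | (obtain rfl : i = j := Fin.ext (by omega); rfl)
  · rintro (_ | ⟨i, _ | _⟩) <;> simp only [N] <;> omega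
  · rintro (_ | ⟨i, _ | _⟩) <;> simp only [N] <;> omega
  · rintro (_ | ⟨i, _ | _⟩)
    · have : ‖∑ j, κ • f j‖ ^ 2 = 1 ^ 2 := by
        rw [← real_inner_self_eq_norm_sq, hf.inner_sum]
        simp only [conj_trivial, Finset.sum_const, Finset.card_univ, Fintype.card_fin,
          nsmul_eq_mul, hκ]
        rw [← mul_inv, Real.mul_self_sqrt m0.le]
        field_simp
      exact (pow_left_inj₀ (norm_nonneg _) zero_le_one two_ne_zero).mp this
    · simp only [F, norm_neg]; exact hf.1 i
    · exact hf.1 i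
  · rintro (_ | ⟨i, _ | _⟩) <;> simp [F, inner_sum, inner_smul_right, f0]
  · rintro (_ | ⟨i, _ | _⟩) <;> simp [F, inner_sum, inner_smul_right, f1]
  · intro x s h
    have a0 := h none
    simp only [F, N, sum_inner, inner_smul_left, conj_trivial] at a0
    refine absurd a0 (not_lt.mpr (Finset.sum_nonpos fun j _ => ?_))
    have a1 := h (some (j, false))
    have a2 := h (some (j, true))
    simp only [F, N, inner_neg_left, inner_add_right, inner_smul_right] at a1 a2 ⊢
    push_cast at a1 a2 ⊢
    have j0 : (0 : ℝ) ≤ j := by positivity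
    have a3 : 0 < inner ℝ (f j) s := by linarith
    apply mul_nonpos_of_nonneg_of_nonpos κ0.le
    nlinarith
  · intro i
    obtain ⟨p, s, k1, k2, k3⟩ := real_feas i
    refine ⟨∑ j, p j • f j, ∑ j, s j • f j, by simp [inner_sum, inner_smul_right, f1],
      by simp [inner_sum, inner_smul_right, f1], ?_⟩
    have val : ∀ (j : Fin m) (t : ℝ),
        inner ℝ (f j) (∑ j, p j • f j + t • ∑ j, s j • f j) = p j + t * s j := fun j t => by
      rw [inner_add_right, inner_smul_right, hf.inner_right_fintype, hf.inner_right_fintype]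
    rintro (_ | ⟨j, _ | _⟩) hj
    · simp only [F, N, sum_inner, inner_smul_left, conj_trivial, val]
      rw [← Finset.mul_sum]
      exact mul_pos κ0 (by simpa using k1 hj)
    · simp only [F, N, inner_neg_left, val]
      have := k2 j hj
      push_cast
      linarith
    · simp only [F, N, val]
      have := k3 j hj
      push_cast
      linarith

end Pool.Agent.MP_a382a5_co
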