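import Pool.Agent.MP_a382a5_co.Perm
import Pool.Agent.MP_a382a5_co.Hadwiger

-- part MP_a382a5_co.Plane
section

/-!
In the plane, six separated points near two lines force a small angle.
-/

namespace Pool.Agent.MP_a382a5_co

/-- a partition of the unit rhombus in five pieces -/
noncomputable def piece (P Q : ℝ) : ℕ :=
  if 1 / 3 ≤ P then 0 else if P ≤ -(1 / 3) then 1 else if 1 / 3 ≤ Q then 2 else
    if 0 ≤ P then 3 else 4

lemma tip_bound {x y q : ℝ} (hx : 0 ≤ x) (hx' : x ≤ 2 / 3) (hy : 0 ≤ y) (hy' : y ≤ 2 / 3)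
    (h₁ : q ≤ x + y) (h₂ : -(x + y) ≤ q) :
    (x - y) ^ 2 + q ^ 2 ≤ 2 ∧ 50 * (x - y) ^ 2 + 8 * q ^ 2 ≤ 27 := by
  have h : q ^ 2 ≤ (x + y) ^ 2 := sq_le_sq' h₂ h₁
  have a1 : x ^ 2 ≤ 2 / 3 * x := by nlinarith
  have a2 : y ^ 2 ≤ 2 / 3 * y := by nlinarith
  have a3 : 0 ≤ (2 / 3 - x) * (2 / 3 - y) := mul_nonneg (by linarith) (by linarith)
  have a4 := mul_nonneg hx hy
  constructor <;> nlinarith

lemma box_bound {p q a b : ℝ} (h₁ : p ≤ a) (h₂ : -a ≤ p) (h₃ : q ≤ b) (h₄ : -b ≤ q)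
    (k₁ : a ^ 2 + b ^ 2 ≤ 2) (k₂ : 50 * a ^ 2 + 8 * b ^ 2 ≤ 27) :
    p ^ 2 + q ^ 2 ≤ 2 ∧ 50 * p ^ 2 + 8 * q ^ 2 ≤ 27 := by
  have := sq_le_sq' h₂ h₁
  have := sq_le_sq' h₄ h₃
  constructor <;> linarith

lemma piece_bound {P Q P' Q' : ℝ} (a1 : P + Q ≤ 1) (a2 : -1 ≤ P + Q) (a3 : Q - P ≤ 1)
    (a4 : -1 ≤ Q - P) (b1 : P' + Q' ≤ 1) (b2 : -1 ≤ P' + Q') (b3 : Q' - P' ≤ 1)
    (b4 : -1 ≤ Q' - P') (h : piece P Q = piece P' Q') :
    (P - P') ^ 2 + (Q - Q') ^ 2 ≤ 2 ∧ 50 * (P - P') ^ 2 + 8 * (Q - Q') ^ 2 ≤ 27 := by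
  unfold piece at h
  split_ifs at h
  all_goals first | omega | skip
  · have := tip_bound (x := 1 - P') (y := 1 - P) (q := Q - Q') (by linarith) (by linarith)
      (by linarith) (by linarith) (by linarith) (by linarith)
    rwa [show 1 - P' - (1 - P) = P - P' by ring] at this
  · have := tip_bound (x := 1 + P) (y := 1 + P') (q := Q - Q') (by linarith) (by linarith)
      (by linarith) (by linarith) (by linarith) (by linarith)
    rwa [show 1 + P - (1 + P') = P - P' by ring] at this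
  · exact box_bound (a := 2 / 3) (b := 2 / 3) (by linarith) (by linarith) (by linarith)
      (by linarith) (by norm_num) (by norm_num)
  · exact box_bound (a := 1 / 3) (b := 4 / 3) (by linarith) (by linarith) (by linarith)
      (by linarith) (by norm_num) (by norm_num)
  · exact box_bound (a := 1 / 3) (b := 4 / 3) (by linarith) (by linarith) (by linarith)
      (by linarith) (by norm_num) (by norm_num)

abbrev E2 := EuclideanSpace ℝ (Fin 2)

lemma inner_E2 (x y : E2) : inner ℝ x y = x 0 * y 0 + x 1 * y 1 := by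
  simp [PiLp.inner_apply, Fin.sum_univ_two]; ring

lemma normsq_E2 (x : E2) : ‖x‖ ^ 2 = x 0 ^ 2 + x 1 ^ 2 := by
  rw [← real_inner_self_eq_norm_sq, inner_E2]; ring

/-- signed distance to a line in the plane -/
def sd (p v c : E2) : ℝ := v 0 * (c 1 - p 1) - v 1 * (c 0 - p 0)

lemma sd_bound {p v c : E2} (hv : ‖v‖ = 1) (h : ‖off p v c‖ ≤ 1) : -1 ≤ sd p v c ∧ sd p v c ≤ 1 := by
  have h1 : v 0 ^ 2 + v 1 ^ 2 = 1 := by rw [← normsq_E2, hv]; norm_num
  have h2 : ‖off p v c‖ ^ 2 = sd p v c ^ 2 := by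
    rw [off, norm_perp_sq hv, normsq_E2, inner_E2, sd]
    simp only [PiLp.sub_apply]
    linear_combination (-((c 0 - p 0) ^ 2 + (c 1 - p 1) ^ 2)) * h1
  have h3 : sd p v c ^ 2 ≤ 1 ^ 2 := by rw [← h2]; exact pow_le_pow_left₀ (norm_nonneg _) h 2
  exact abs_le_of_sq_le_sq' h3 zero_le_one

lemma pack_plane : Pack E2 6 := by
  intro S v w p q hS hc hv hw h0 h h'
  by_contra hγ
  push Not at hγ
  obtain ⟨a, ha, b, hb, hab, hpc⟩ := Finset.exists_ne_map_eq_of_card_lt_of_maps_to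
    (s := S) (t := Finset.range 5)
    (f := fun c => piece ((sd q w c - sd p v c) / 2) ((sd q w c + sd p v c) / 2))
    (by rw [Finset.card_range]; omega) (by
      intro c _
      simp only [Finset.coe_range, Set.mem_Iio, piece]
      split_ifs <;> omega)
  obtain ⟨a1, a2⟩ := sd_bound hv (h a ha)
  obtain ⟨a3, a4⟩ := sd_bound hw (h' a ha)
  obtain ⟨b1, b2⟩ := sd_bound hv (h b hb)
  obtain ⟨b3, b4⟩ := sd_bound hw (h' b hb)
  obtain ⟨k1, k2⟩ := piece_bound (by linarith) (by linarith) (by linarith) (by linarith)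
    (by linarith) (by linarith) (by linarith) (by linarith) hpc
  have hd := hS a ha b hb hab
  have hd2 : 4 < ‖a - b‖ ^ 2 := by rw [dist_eq_norm] at hd; nlinarith
  have h1 : v 0 ^ 2 + v 1 ^ 2 = 1 := by rw [← normsq_E2, hv]; norm_num
  have h2 : w 0 ^ 2 + w 1 ^ 2 = 1 := by rw [← normsq_E2, hw]; norm_num
  set γ := inner ℝ v w with hγdef
  set X := (sd q w a - sd p v a) / 2 - (sd q w b - sd p v b) / 2 with hX
  set Y := (sd q w a + sd p v a) / 2 - (sd q w b + sd p v b) / 2 with hY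
  have id1 : (1 - γ ^ 2) * ‖a - b‖ ^ 2 = 2 * (1 + γ) * X ^ 2 + 2 * (1 - γ) * Y ^ 2 := by
    rw [hγdef, hX, hY, normsq_E2, inner_E2]
    simp only [sd, PiLp.sub_apply]
    set e0 := a 0 - b 0 with he0
    set e1 := a 1 - b 1 with he1
    have r0 : a 0 = e0 + b 0 := by rw [he0]; ring
    have r1 : a 1 = e1 + b 1 := by rw [he1]; ring
    rw [r0, r1]
    linear_combination (-(e0 ^ 2 + e1 ^ 2) * (w 0 ^ 2 + w 1 ^ 2) + (w 0 * e1 - w 1 * e0) ^ 2) * h1
      + (-(e0 ^ 2 + e1 ^ 2) + (v 0 * e1 - v 1 * e0) ^ 2) * h2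
  have k0 : 0 < 1 - γ ^ 2 := by nlinarith
  have k3 : (1 - γ ^ 2) * 4 < (1 - γ ^ 2) * ‖a - b‖ ^ 2 := mul_lt_mul_of_pos_left hd2 k0
  have k4 := mul_le_mul_of_nonneg_left k1 (show 0 ≤ 21 / 29 - γ by linarith)
  have k5 := mul_le_mul_of_nonneg_left k2 h0
  nlinarith [mul_nonneg h0 (show 0 ≤ 21 / 29 - γ by linarith)]

end Pool.Agent.MP_a382a5_co

end

-- part MP_a382a5_co.Upper
section

/-!
The upper bound for the Helly number.
-/

namespace Pool.Agent.MP_a382a5_co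

open Module

theorem comb {α : Type*} [DecidableEq α] {U : Finset α} {k : ℕ} (hk : 1 ≤ k)
    (hn : 4 * k + 3 ≤ U.card) (σ : α → α → α → Prop)
    (tot : ∀ X ∈ U, ∀ x ∈ U, ∀ y ∈ U, x ≠ X → y ≠ X → x ≠ y → σ X x y ∨ σ X y x)
    (asym : ∀ X x y, σ X x y → ¬ σ X y x)
    (G : ∀ X ∈ U, ∀ Y ∈ U, ∀ a ∈ U, ∀ b ∈ U, ∀ c ∈ U, ∀ d ∈ U,
      (X ≠ a ∧ X ≠ b ∧ X ≠ c ∧ X ≠ d) → (Y ≠ a ∧ Y ≠ b ∧ Y ≠ c ∧ Y ≠ d) →
      σ X a b → σ Y b a → σ X c d → σ Y d c → a = c ∧ b = d)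
    (blk : ∀ R : α → α → Prop, (∀ x ∈ U, ∀ y ∈ U, x ≠ y → R x y ∨ R y x) →
      ∃ S ⊆ U, S.card ≤ 2 * k + 2 ∧ ∀ X ∈ U, X ∉ S → ∃ x ∈ S, ∃ y ∈ S, x ≠ y ∧ R x y ∧ σ X y x) :
    False := by
  classical
  let R : α → α → Prop := fun x y => 3 ≤ (U.filter fun X => X ≠ x ∧ X ≠ y ∧ σ X x y).card
  have totR : ∀ x ∈ U, ∀ y ∈ U, x ≠ y → R x y ∨ R y x := by
    intro x hx y hy hxy
    have h1 : (U.erase x).erase y ⊆ (U.filter fun X => X ≠ x ∧ X ≠ y ∧ σ X x y) ∪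
        (U.filter fun X => X ≠ y ∧ X ≠ x ∧ σ X y x) := by
      intro X hX
      obtain ⟨h1, h2⟩ := Finset.mem_erase.mp hX
      obtain ⟨h2, h3⟩ := Finset.mem_erase.mp h2
      rcases tot X h3 x hx y hy h2.symm h1.symm hxy with h | h
      · exact Finset.mem_union_left _ (Finset.mem_filter.mpr ⟨h3, h2, h1, h⟩)
      · exact Finset.mem_union_right _ (Finset.mem_filter.mpr ⟨h3, h1, h2, h⟩)
    have h2 := (Finset.card_le_card h1).trans (Finset.card_union_le _ _)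
    have h3 : U.card - 1 ≤ (U.erase x).card := Finset.pred_card_le_card_erase
    have h4 : (U.erase x).card - 1 ≤ ((U.erase x).erase y).card := Finset.pred_card_le_card_erase
    simp only [R]
    omega
  have pick : ∀ x y, R x y → ∀ z t, ∃ X ∈ U, (X ≠ x ∧ X ≠ y ∧ X ≠ z ∧ X ≠ t) ∧ σ X x y := by
    intro x y h z t
    obtain ⟨X, hX, hX'⟩ := Finset.exists_mem_notMem_of_card_lt_card
      (s := {z, t}) (t := U.filter fun X => X ≠ x ∧ X ≠ y ∧ σ X x y)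
      (lt_of_le_of_lt Finset.card_le_two h)
    obtain ⟨h1, h2, h3, h4⟩ := Finset.mem_filter.mp hX
    simp only [Finset.mem_insert, Finset.mem_singleton, not_or] at hX'
    exact ⟨X, h1, ⟨h2, h3, hX'.1, hX'.2⟩, h4⟩
  have NB : ∀ x ∈ U, ∀ y ∈ U, ∀ z ∈ U, ∀ t ∈ U, ¬ (x = z ∧ y = t) → ¬ (x = t ∧ y = z) →
      (∃ X ∈ U, (X ≠ x ∧ X ≠ y ∧ X ≠ z ∧ X ≠ t) ∧ σ X x y) →
      (∃ X ∈ U, (X ≠ x ∧ X ≠ y ∧ X ≠ z ∧ X ≠ t) ∧ σ X y x) →
      (∃ X ∈ U, (X ≠ x ∧ X ≠ y ∧ X ≠ z ∧ X ≠ t) ∧ σ X z t) →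
      (∃ X ∈ U, (X ≠ x ∧ X ≠ y ∧ X ≠ z ∧ X ≠ t) ∧ σ X t z) → False := by
    rintro x hx y hy z hz t ht n1 n2 ⟨X, hX, oX, sX⟩ ⟨X', hX', oX', sX'⟩ ⟨Y, hY, oY, sY⟩
      ⟨Y', hY', oY', sY'⟩
    have hxy : x ≠ y := by rintro rfl; exact asym _ _ _ sX sX
    have hzt : z ≠ t := by rintro rfl; exact asym _ _ _ sY sY
    have G1 : ∀ P ∈ U, ∀ Q ∈ U, (P ≠ x ∧ P ≠ y ∧ P ≠ z ∧ P ≠ t) → (Q ≠ x ∧ Q ≠ y ∧ Q ≠ z ∧ Q ≠ t) →
        σ P x y → σ Q y x → σ P z t → σ Q t z → False := fun P hP Q hQ oP oQ a b c d =>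
      n1 (G P hP Q hQ x hx y hy z hz t ht oP oQ a b c d)
    have G2 : ∀ P ∈ U, ∀ Q ∈ U, (P ≠ x ∧ P ≠ y ∧ P ≠ z ∧ P ≠ t) → (Q ≠ x ∧ Q ≠ y ∧ Q ≠ z ∧ Q ≠ t) →
        σ P x y → σ Q y x → σ P t z → σ Q z t → False := fun P hP Q hQ oP oQ a b c d =>
      n2 (G P hP Q hQ x hx y hy t ht z hz ⟨oP.1, oP.2.1, oP.2.2.2, oP.2.2.1⟩
        ⟨oQ.1, oQ.2.1, oQ.2.2.2, oQ.2.2.1⟩ a b c d)
    rcases tot X hX z hz t ht oX.2.2.1.symm oX.2.2.2.symm hzt with a | a <;>
      rcases tot X' hX' z hz t ht oX'.2.2.1.symm oX'.2.2.2.symm hzt with b | b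
    · rcases tot Y' hY' x hx y hy oY'.1.symm oY'.2.1.symm hxy with c | c
      · exact G2 Y' hY' X' hX' oY' oX' c sX' sY' b
      · exact G1 X hX Y' hY' oX oY' sX c a sY'
    · exact G1 X hX X' hX' oX oX' sX sX' a b
    · exact G2 X hX X' hX' oX oX' sX sX' a b
    · rcases tot Y hY x hx y hy oY.1.symm oY.2.1.symm hxy with c | c
      · exact G1 Y hY X' hX' oY oX' c sX' sY b
      · exact G2 X hX Y hY oX oY sX c a sY
  by_cases hA : ∃ A ∈ U, ∃ B ∈ U, A ≠ B ∧ R A B ∧ R B A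
  · obtain ⟨A, hA, B, hB, hAB, rA, rB⟩ := hA
    have resp : ∀ X ∈ U, X ≠ A → X ≠ B → ∀ x ∈ U, ∀ y ∈ U, X ≠ x → X ≠ y → R x y → σ X y x →
        (x = A ∧ y = B) ∨ (x = B ∧ y = A) := by
      intro X hX h1 h2 x hx y hy h3 h4 r s
      by_contra hc
      rw [not_or] at hc
      refine NB x hx y hy A hA B hB hc.1 hc.2 (pick x y r A B) ⟨X, hX, ⟨h3, h4, h1, h2⟩, s⟩ ?_ ?_
      · obtain ⟨P, hP, o, s⟩ := pick A B rA x y
        exact ⟨P, hP, ⟨o.2.2.1, o.2.2.2, o.1, o.2.1⟩, s⟩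
      · obtain ⟨P, hP, o, s⟩ := pick B A rB x y
        exact ⟨P, hP, ⟨o.2.2.1, o.2.2.2, o.2.1, o.1⟩, s⟩
    obtain ⟨S₁, hS₁, c₁, b₁⟩ := blk (fun x y => R x y ∧ ¬ (x = B ∧ y = A)) (by
      intro x hx y hy hxy
      by_cases e1 : x = B ∧ y = A
      · obtain ⟨rfl, rfl⟩ := e1
        exact Or.inr ⟨rA, fun h => hAB h.1⟩
      by_cases e2 : y = B ∧ x = A
      · obtain ⟨rfl, rfl⟩ := e2
        exact Or.inl ⟨rA, e1⟩
      exact (totR x hx y hy hxy).imp (fun h => ⟨h, e1⟩) (fun h => ⟨h, e2⟩))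
    obtain ⟨S₂, hS₂, c₂, b₂⟩ := blk (fun x y => R x y ∧ ¬ (x = A ∧ y = B)) (by
      intro x hx y hy hxy
      by_cases e1 : x = A ∧ y = B
      · obtain ⟨rfl, rfl⟩ := e1
        exact Or.inr ⟨rB, fun h => hAB h.2⟩
      by_cases e2 : y = A ∧ x = B
      · obtain ⟨rfl, rfl⟩ := e2
        exact Or.inl ⟨rB, e1⟩
      exact (totR x hx y hy hxy).imp (fun h => ⟨h, e1⟩) (fun h => ⟨h, e2⟩))
    have k₁ : ∀ X ∈ U, X ∉ S₁ → X ≠ A → X ≠ B → A ∈ S₁ ∧ B ∈ S₁ ∧ σ X B A := by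
      intro X hX h0 h1 h2
      obtain ⟨x, hx, y, hy, _, ⟨r, n⟩, s⟩ := b₁ X hX h0
      rcases resp X hX h1 h2 x (hS₁ hx) y (hS₁ hy) (fun e => h0 (e ▸ hx)) (fun e => h0 (e ▸ hy))
        r s with ⟨rfl, rfl⟩ | h
      · exact ⟨hx, hy, s⟩
      · exact (n h).elim
    have k₂ : ∀ X ∈ U, X ∉ S₂ → X ≠ A → X ≠ B → A ∈ S₂ ∧ B ∈ S₂ ∧ σ X A B := by
      intro X hX h0 h1 h2
      obtain ⟨x, hx, y, hy, _, ⟨r, n⟩, s⟩ := b₂ X hX h0
      rcases resp X hX h1 h2 x (hS₂ hx) y (hS₂ hy) (fun e => h0 (e ▸ hx)) (fun e => h0 (e ▸ hy))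
        r s with h | ⟨rfl, rfl⟩
      · exact (n h).elim
      · exact ⟨hy, hx, s⟩
    have out : ∀ S : Finset α, S.card ≤ 2 * k + 2 → ∃ X ∈ U, X ∉ S ∧ X ≠ A ∧ X ≠ B := by
      intro S hS
      obtain ⟨X, hX, hX'⟩ := Finset.exists_mem_notMem_of_card_lt_card
        (s := S ∪ {A, B}) (t := U) (by
          have h1 := Finset.card_union_le S {A, B}
          have h2 : ({A, B} : Finset α).card ≤ 2 := Finset.card_le_two
          omega)
      simp only [Finset.mem_union, Finset.mem_insert, Finset.mem_singleton, not_or] at hX'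
      exact ⟨X, hX, hX'⟩
    obtain ⟨X₁, hX₁, o₁⟩ := out S₁ c₁
    obtain ⟨X₂, hX₂, o₂⟩ := out S₂ c₂
    obtain ⟨a₁, d₁, -⟩ := k₁ X₁ hX₁ o₁.1 o₁.2.1 o₁.2.2
    obtain ⟨a₂, d₂, -⟩ := k₂ X₂ hX₂ o₂.1 o₂.2.1 o₂.2.2
    obtain ⟨X, hX, hX'⟩ := Finset.exists_mem_notMem_of_card_lt_card
      (s := S₁ ∪ S₂) (t := U) (by
        have h1 := Finset.card_union_add_card_inter S₁ S₂
        have h2 : ({A, B} : Finset α) ⊆ S₁ ∩ S₂ := by
          intro x hx
          simp only [Finset.mem_insert, Finset.mem_singleton] at hx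
          rcases hx with rfl | rfl <;> simp [*]
        have h3 := Finset.card_le_card h2
        rw [Finset.card_pair hAB] at h3
        omega)
    rw [Finset.mem_union, not_or] at hX'
    have nA : X ≠ A := fun e => hX'.1 (e ▸ a₁)
    have nB : X ≠ B := fun e => hX'.1 (e ▸ d₁)
    exact asym _ _ _ (k₁ X hX hX'.1 nA nB).2.2 (k₂ X hX hX'.2 nA nB).2.2
  · obtain ⟨S, hS, c, b⟩ := blk R totR
    obtain ⟨X₀, hX₀, o₀⟩ := Finset.exists_mem_notMem_of_card_lt_card (s := S) (t := U) (by omega)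
    obtain ⟨x₀, hx₀, y₀, hy₀, n₀, r₀, s₀⟩ := b X₀ hX₀ o₀
    refine hA ⟨x₀, hS hx₀, y₀, hS hy₀, n₀, r₀, ?_⟩
    have sub : U \ S ⊆ U.filter fun X => X ≠ y₀ ∧ X ≠ x₀ ∧ σ X y₀ x₀ := by
      intro X hX
      obtain ⟨hX, o⟩ := Finset.mem_sdiff.mp hX
      have ne : ∀ {P z}, P ∉ S → z ∈ S → P ≠ z := fun h1 h2 e => h1 (e ▸ h2)
      refine Finset.mem_filter.mpr ⟨hX, ne o hy₀, ne o hx₀, ?_⟩
      obtain ⟨x, hx, y, hy, n, r, s⟩ := b X hX o
      by_cases e1 : x = x₀ ∧ y = y₀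
      · obtain ⟨rfl, rfl⟩ := e1
        exact s
      exfalso
      by_cases e2 : x = y₀ ∧ y = x₀
      · obtain ⟨rfl, rfl⟩ := e2
        exact hA ⟨_, hS hx, _, hS hy, n, r, r₀⟩
      refine NB x (hS hx) y (hS hy) x₀ (hS hx₀) y₀ (hS hy₀) e1 e2 (pick x y r x₀ y₀)
        ⟨X, hX, ⟨ne o hx, ne o hy, ne o hx₀, ne o hy₀⟩, s⟩ ?_
        ⟨X₀, hX₀, ⟨ne o₀ hx, ne o₀ hy, ne o₀ hx₀, ne o₀ hy₀⟩, s₀⟩
      obtain ⟨P, hP, o, s⟩ := pick x₀ y₀ r₀ x y
      exact ⟨P, hP, ⟨o.2.2.1, o.2.2.2, o.1, o.2.1⟩, s⟩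
    have h1 := Finset.card_le_card sub
    have h2 := Finset.le_card_sdiff S U
    simp only [R]
    omega

variable {V : Type*} [NormedAddCommGroup V] [InnerProductSpace ℝ V]

lemma inner_nonneg_of_close {u v w : V} (hu : ‖u‖ = 1) (hv : ‖v‖ = 1) (hw : ‖w‖ = 1)
    (h₁ : 21 / 29 < inner ℝ v u) (h₂ : 21 / 29 < inner ℝ w u) : 0 ≤ inner ℝ v w := by
  have a1 := norm_perp_sq hu v
  have a2 := norm_perp_sq hu w
  have a3 : inner ℝ (v - (inner ℝ u v) • u) (w - (inner ℝ u w) • u) =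
      inner ℝ v w - inner ℝ u v * inner ℝ u w := by
    simp only [inner_sub_left, inner_sub_right, inner_smul_left, inner_smul_right,
      real_inner_self_eq_norm_sq, hu, conj_trivial, real_inner_comm u v]
    ring
  have a4 := abs_real_inner_le_norm (v - (inner ℝ u v) • u) (w - (inner ℝ u w) • u)
  have a5 := neg_abs_le (inner ℝ (v - (inner ℝ u v) • u) (w - (inner ℝ u w) • u))
  rw [real_inner_comm] at h₁ h₂
  rw [hv] at a1
  rw [hw] at a2
  have b1 : ‖v - (inner ℝ u v) • u‖ ≤ inner ℝ u v :=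
    (abs_le_of_sq_le_sq' (by nlinarith) (by linarith)).2
  have b2 : ‖w - (inner ℝ u w) • u‖ ≤ inner ℝ u w :=
    (abs_le_of_sq_le_sq' (by nlinarith) (by linarith)).2
  have b3 := mul_le_mul b1 b2 (norm_nonneg _) (by linarith)
  linarith

theorem upper_core [FiniteDimensional ℝ V] [DecidableEq V] {k m : ℕ} (hk : finrank ℝ V = k + 1)
    (hk1 : 1 ≤ k) (hP : Pack V m) {U : Finset V} (hU : Sep U) (hn : 4 * k + 3 ≤ U.card)
    (hm : m + 2 ≤ U.card) (h : ∀ X ∈ U, HasT (U.erase X)) : HasT U := by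
  by_contra hcon
  choose! p v hv hpv using h
  obtain ⟨X₀, hX₀⟩ := Finset.card_pos.mp (show 0 < U.card by omega)
  let w : V → V := fun X => if 0 ≤ inner ℝ (v X) (v X₀) then v X else -v X
  have hw : ∀ X ∈ U, ‖w X‖ = 1 := fun X hX => by
    simp only [w]; split_ifs <;> simp [hv X hX]
  have hpw : ∀ X ∈ U, ∀ c ∈ U, c ≠ X → ‖off (p X) (w X) c‖ ≤ 1 := fun X hX c hc hne => by
    have := hpv X hX c (Finset.mem_erase.mpr ⟨hne, hc⟩)
    simp only [w]; split_ifs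
    · exact this
    · rwa [off_neg]
  have hw0 : ∀ X, 0 ≤ inner ℝ (w X) (v X₀) := fun X => by
    simp only [w]; split_ifs with h
    · exact h
    · rw [inner_neg_left]; linarith
  have sub : ∀ X Y, (U.erase X).erase Y ⊆ U := fun X Y =>
    (Finset.erase_subset _ _).trans (Finset.erase_subset _ _)
  have sep : ∀ X Y, Sep ((U.erase X).erase Y) := fun X Y x hx y hy =>
    hU x (sub X Y hx) y (sub X Y hy)
  have crd : ∀ X Y, m ≤ ((U.erase X).erase Y).card := fun X Y => by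
    have h3 : U.card - 1 ≤ (U.erase X).card := Finset.pred_card_le_card_erase
    have h4 : (U.erase X).card - 1 ≤ ((U.erase X).erase Y).card := Finset.pred_card_le_card_erase
    omega
  have n1 : ∀ X ∈ U, ∀ Y, ∀ c ∈ (U.erase X).erase Y, ‖off (p X) (w X) c‖ ≤ 1 := fun X hX Y c hc =>
    hpw X hX c (sub X Y hc) (Finset.mem_erase.mp (Finset.mem_erase.mp hc).2).1
  have n2 : ∀ X, ∀ Y ∈ U, ∀ c ∈ (U.erase X).erase Y, ‖off (p Y) (w Y) c‖ ≤ 1 := fun X Y hY c hc =>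
    hpw Y hY c (sub X Y hc) (Finset.mem_erase.mp hc).1
  have close0 : ∀ X ∈ U, 21 / 29 < inner ℝ (w X) (v X₀) := fun X hX =>
    hP _ _ _ (p X) (p X₀) (sep X X₀) (crd X X₀) (hw X hX) (hv X₀ hX₀) (hw0 X) (n1 X hX X₀)
      (fun c hc => hpv X₀ hX₀ c (Finset.mem_erase.mpr ⟨(Finset.mem_erase.mp hc).1, sub _ _ hc⟩))
  have close : ∀ X ∈ U, ∀ Y ∈ U, 21 / 29 < inner ℝ (w X) (w Y) := fun X hX Y hY =>
    hP _ _ _ (p X) (p Y) (sep X Y) (crd X Y) (hw X hX) (hw Y hY)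
      (inner_nonneg_of_close (hv X₀ hX₀) (hw X hX) (hw Y hY) (close0 X hX) (close0 Y hY))
      (n1 X hX Y) (n2 X Y hY)
  have tot : ∀ X ∈ U, ∀ x ∈ U, ∀ y ∈ U, x ≠ X → y ≠ X → x ≠ y →
      0 < inner ℝ (w X) (y - x) ∨ 0 < inner ℝ (w X) (x - y) := by
    intro X hX x hx y hy h1 h2 h3
    rcases lt_or_gt_of_ne (inner_ne_zero (hw X hX) (hpw X hX x hx h1) (hpw X hX y hy h2)
      (hU x hx y hy h3)) with h | h
    · right; rw [inner_swap]; linarith
    · left; exact h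
  refine comb hk1 hn (fun X x y => 0 < inner ℝ (w X) (y - x)) tot ?_ ?_ ?_
  · intro X x y h1 h2
    rw [inner_swap] at h2
    linarith
  · intro X hX Y hY a ha b hb c hc d hd oX oY h1 h2 h3 h4
    have mem : ∀ {z}, z ∈ U → X ≠ z → Y ≠ z → z ∈ (U.erase X).erase Y := fun h1 h2 h3 =>
      Finset.mem_erase.mpr ⟨h3.symm, Finset.mem_erase.mpr ⟨h2.symm, h1⟩⟩
    exact one_swap (sep X Y) (hw X hX) (hw Y hY) (close X hX Y hY).le (n1 X hX Y) (n2 X Y hY)
      (mem ha oX.1 oY.1) (mem hb oX.2.1 oY.2.1) (mem hc oX.2.2.1 oY.2.2.1)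
      (mem hd oX.2.2.2 oY.2.2.2) h1 h2 h3 h4
  · intro R hR
    by_contra hc
    refine hcon (hadwiger hk hk1 hU (by omega) hR fun S hS hcard => ?_)
    by_contra hT
    refine hc ⟨S, hS, hcard, fun X hX hXS => ?_⟩
    have ne : ∀ {z}, z ∈ S → z ≠ X := fun h e => hXS (e ▸ h)
    by_contra hno
    refine hT ⟨p X, w X, hw X hX, fun c hc => ?_, fun x hx y hy hxy r => ?_⟩
    · have := hpw X hX c (hS hc) (ne hc)
      nlinarith [norm_nonneg (off (p X) (w X) c)]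
    · exact (tot X hX x (hS hx) y (hS hy) (ne hx) (ne hy) hxy).resolve_right
        fun s => hno ⟨x, hx, y, hy, hxy, r, s⟩

theorem upper [FiniteDimensional ℝ V] {k m N : ℕ} (hk : finrank ℝ V = k + 1)
    (hk1 : 1 ≤ k) (hP : Pack V m) (hN : 4 * k + 2 ≤ N) (hm : m + 1 ≤ N) (U : Finset V) :
    Sep U → (∀ T ⊆ U, T.card ≤ N → HasT T) → HasT U := by
  classical
  induction U using Finset.strongInduction with
  | H U ih =>
    intro hU h
    rcases le_or_gt U.card N with hc | hc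
    · exact h U le_rfl hc
    · refine upper_core hk hk1 hP hU (by omega) (by omega) fun X hX => ?_
      exact ih _ (Finset.erase_ssubset hX)
        (fun x hx y hy => hU x (Finset.erase_subset _ _ hx) y (Finset.erase_subset _ _ hy))
        fun T hT => h T (hT.trans (Finset.erase_subset _ _))

lemma hasT_iff (S : Finset V) :
    HasT S ↔ ∃ p v : V, v ≠ 0 ∧ ∀ c ∈ S, ∃ t : ℝ, dist (p + t • v) c ≤ 1 := by
  constructor
  · rintro ⟨p, v, hv, h⟩
    refine ⟨p, v, by rintro rfl; simp at hv, fun c hc => ⟨inner ℝ v (c - p), ?_⟩⟩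
    have := h c hc
    rwa [off, sub_sub, ← dist_eq_norm, dist_comm] at this
  · rintro ⟨p, v, hv, h⟩
    have hN : 0 < ‖v‖ := norm_pos_iff.mpr hv
    have hw : ‖‖v‖⁻¹ • v‖ = 1 := norm_smul_inv_norm hv
    refine ⟨p, ‖v‖⁻¹ • v, hw, fun c hc => ?_⟩
    obtain ⟨t, ht⟩ := h c hc
    refine (norm_off_le hw p c (t * ‖v‖)).trans ?_
    rwa [smul_smul, mul_assoc, mul_inv_cancel₀ hN.ne', mul_one, ← dist_eq_norm]

end Pool.Agent.MP_a382a5_co

end

-- part MP_a382a5_co.Lower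
section

/-!
The lower bound for the Helly number: two pinned lines sharing a pair of nearly touching balls.
-/

namespace Pool.Agent.MP_a382a5_co

open Filter Topology

variable {V : Type*} [NormedAddCommGroup V] [InnerProductSpace ℝ V]

lemma far {v w p q a b a' b' : V} (hv : ‖v‖ = 1) (hw : ‖w‖ = 1)
    (ha : ‖off p v a‖ ≤ 1) (hb : ‖off p v b‖ ≤ 1) (ha₁ : ‖off q w a‖ ≤ 1) (hb₁ : ‖off q w b‖ ≤ 1)
    (ha' : ‖off p v a'‖ ≤ 1) (hb' : ‖off p v b'‖ ≤ 1) (h₁ : 9 ≤ inner ℝ v (b - a))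
    (h₂ : 0 < inner ℝ w (b - a)) (h₃ : 9 ≤ inner ℝ v (b' - a')) : 0 < inner ℝ w (b' - a') := by
  have a1 := two_lines hv hw (b - a)
  have a2 := two_lines hw hv (b - a)
  have a3 := two_lines hw hv (b' - a')
  rw [real_inner_comm v w] at a2 a3
  have c1 := pow_le_pow_left₀ (norm_nonneg _) (perp_le_two ha hb) 2
  have c2 := pow_le_pow_left₀ (norm_nonneg _) (perp_le_two ha₁ hb₁) 2
  have c3 := pow_le_pow_left₀ (norm_nonneg _) (perp_le_two ha' hb') 2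
  have hγ : |inner ℝ v w| ≤ 1 := by simpa [hv, hw] using abs_real_inner_le_norm v w
  set γ := inner ℝ v w
  obtain ⟨g1, g2⟩ := abs_le.mp hγ
  have k0 : 0 ≤ 1 - γ ^ 2 := by nlinarith
  have k1 : 1 - γ ^ 2 ≤ 1 := by nlinarith
  have d1 := abs_le_of_sq_le_sq' (a1.trans (mul_le_mul k1 c2 (by positivity) zero_le_one |>.trans_eq
    (one_mul _))) (by norm_num)
  have d2 := abs_le_of_sq_le_sq' (a2.trans (mul_le_mul k1 c1 (by positivity) zero_le_one |>.trans_eq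
    (one_mul _))) (by norm_num)
  have d3 := abs_le_of_sq_le_sq' (a3.trans (mul_le_mul k1 c3 (by positivity) zero_le_one |>.trans_eq
    (one_mul _))) (by norm_num)
  have g0 : 0 < γ := by
    by_contra hc
    push Not at hc
    nlinarith [d1.2]
  have g3 : 1 / 2 ≤ γ := by
    by_contra hc
    push Not at hc
    have e1 := mul_le_mul_of_nonneg_left d2.2 g0.le
    have e2 : γ ^ 2 ≤ 1 / 4 := by nlinarith
    nlinarith [d1.2]
  nlinarith [d3.1]

lemma off_map (ι : V ≃ₗᵢ[ℝ] V) (p v c : V) : off (ι p) (ι v) (ι c) = ι (off p v c) := by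
  simp only [off, ← map_sub, ι.inner_map_map, ← map_smul]

lemma off_smul (l : ℝ) (p v c : V) : off (l • p) v (l • c) = l • off p v c := by
  simp only [off, ← smul_sub, inner_smul_right, mul_smul]

/-- from a family at the critical radius to a family of unit balls -/
theorem scale {J : Type*} [Fintype J] (c : J → V) (hsep : ∀ i j, i ≠ j → 2 < dist (c i) (c j))
    (hno : ∀ q w : V, ‖w‖ = 1 → ¬ ∀ j, ‖off q w (c j)‖ < 1)
    (hyes : ∀ j, ∃ q w : V, ‖w‖ = 1 ∧ ∀ i, i ≠ j → ‖off q w (c i)‖ < 1) :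
    ∃ U : Finset V, Sep U ∧ (∀ T ⊆ U, T.card < Fintype.card J → HasT T) ∧ ¬ HasT U := by
  classical
  choose q w hw h using hyes
  have e : ∀ᶠ ε in 𝓝[>] (0 : ℝ), ∀ j i, i ≠ j → 0 < (1 - ‖off (q j) (w j) (c i)‖) +
      ε * (-‖off (q j) (w j) (c i)‖) := by
    rw [eventually_all]
    intro j
    rw [eventually_all]
    intro i
    by_cases hij : i = j
    · exact Eventually.of_forall fun _ k => (k hij).elim
    · filter_upwards [eventually_pos_add (sub_pos.mpr (h j i hij)) (-‖off (q j) (w j) (c i)‖)]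
        with ε k _ using k
  obtain ⟨ε, hε, hε0⟩ := (e.and self_mem_nhdsWithin).exists
  have hε0 : 0 < ε := hε0
  have hl : (0 : ℝ) < 1 + ε := by linarith
  have sep' : ∀ i j, i ≠ j → 2 < dist ((1 + ε) • c i) ((1 + ε) • c j) := fun i j hij => by
    rw [dist_smul₀, Real.norm_of_nonneg hl.le]
    nlinarith [hsep i j hij]
  have inj : Function.Injective fun j => (1 + ε) • c j := fun i j hij => by
    by_contra hne
    have := sep' i j hne
    simp only at hij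
    rw [hij, dist_self] at this
    linarith
  refine ⟨Finset.univ.image fun j => (1 + ε) • c j, ?_, fun T hT hcard => ?_, ?_⟩
  · intro x hx y hy hxy
    obtain ⟨i, _, rfl⟩ := Finset.mem_image.mp hx
    obtain ⟨j, _, rfl⟩ := Finset.mem_image.mp hy
    exact sep' i j fun e => hxy (by rw [e])
  · obtain ⟨X, hX, hXT⟩ := Finset.exists_mem_notMem_of_card_lt_card (s := T)
      (t := Finset.univ.image fun j => (1 + ε) • c j)
      (by rwa [Finset.card_image_of_injective _ inj])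
    obtain ⟨j, _, rfl⟩ := Finset.mem_image.mp hX
    refine ⟨(1 + ε) • q j, w j, hw j, fun x hx => ?_⟩
    obtain ⟨i, _, rfl⟩ := Finset.mem_image.mp (hT hx)
    rw [off_smul, norm_smul, Real.norm_of_nonneg hl.le]
    have := hε j i (by rintro rfl; exact hXT hx)
    linarith
  · rintro ⟨p, v, hv, hpv⟩
    refine hno ((1 + ε)⁻¹ • p) v hv fun j => ?_
    have := hpv _ (Finset.mem_image_of_mem _ (Finset.mem_univ j))
    have e2 := off_smul (1 + ε) ((1 + ε)⁻¹ • p) v (c j)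
    rw [smul_smul, mul_inv_cancel₀ hl.ne', one_smul] at e2
    rw [e2, norm_smul, Real.norm_of_nonneg hl.le] at this
    nlinarith [norm_nonneg (off ((1 + ε)⁻¹ • p) v (c j))]

/-- abstract form of the construction with two pinned lines exchanged by an isometry -/
theorem schema {J : Type*} [Fintype J] (c : J → V) (ι : V ≃ₗᵢ[ℝ] V) (sw : J → J) (P : J → Prop)
    (v : V) (hv : ‖v‖ = 1) (A B g : J) (hι : ∀ j, ι (c j) = c (sw j)) (hsw : ∀ j, sw (sw j) = j)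
    (hA : sw A = A) (hB : sw B = B) (hPA : P A) (hP : ∀ j, P j ∨ P (sw j))
    (hAB : 2 < dist (c A) (c B)) (hAB' : 0 < inner ℝ v (c A - c B))
    (hg : 9 ≤ inner ℝ v (c g - c (sw g)))
    (hgap : ∀ i j, i ≠ j → (i = A ∧ j = B) ∨ (i = B ∧ j = A) ∨ 9 ≤ |inner ℝ v (c i - c j)|)
    (ht : ∀ j, P j → ‖off 0 v (c j)‖ ^ 2 = 1) (hu : ∀ j, ¬ P j → ‖off 0 v (c j)‖ ^ 2 < 1)
    (hinf : ¬ ∃ x s : V, ∀ j, P j → 0 < inner ℝ (off 0 v (c j)) (x + (inner ℝ v (c j)) • s))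
    (hmin : ∀ i, P i → ∃ x s : V, ∀ j, P j → j ≠ i →
      0 < inner ℝ (off 0 v (c j)) (x + (inner ℝ v (c j)) • s)) :
    ∃ U : Finset V, Sep U ∧ (∀ T ⊆ U, T.card < Fintype.card J → HasT T) ∧ ¬ HasT U := by
  classical
  have hle2 : ∀ j, ‖off 0 v (c j)‖ ^ 2 ≤ 1 := fun j => by
    by_cases h : P j
    · exact (ht j h).le
    · exact (hu j h).le
  have hle : ∀ j, ‖off 0 v (c j)‖ ≤ 1 := fun j => le_one_of_sq (hle2 j) le_rfl
  have hsep : ∀ i j, i ≠ j → 2 < dist (c i) (c j) := by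
    intro i j hij
    rcases hgap i j hij with ⟨rfl, rfl⟩ | ⟨rfl, rfl⟩ | h
    · exact hAB
    · rwa [dist_comm]
    · have := abs_real_inner_le_norm v (c i - c j)
      rw [hv, one_mul, ← dist_eq_norm] at this
      linarith
  have tr : ∀ q w j, ‖off (ι q) (ι w) (c j)‖ = ‖off q w (c (sw j))‖ := fun q w j => by
    conv_lhs => rw [← hsw j, ← hι, off_map, ι.norm_map]
  have core : ∀ q w : V, ‖w‖ = 1 → (∀ j, ‖off q w (c j)‖ < 1) → 0 < inner ℝ w (c A - c B) →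
      0 < inner ℝ w (c g - c (sw g)) → False := by
    intro q w hw h h1 h2
    have e := pin (S := (Finset.univ.filter P).image c) (p := 0) (q := q) hv hw one_pos
      (fun x hx => by
        obtain ⟨j, hj, rfl⟩ := Finset.mem_image.mp hx
        exact ht j (Finset.mem_filter.mp hj).2)
      (fun x hx => by
        obtain ⟨j, hj, rfl⟩ := Finset.mem_image.mp hx
        nlinarith [h j, norm_nonneg (off q w (c j))])
      (fun x hx y hy hxy => by
        obtain ⟨i, _, rfl⟩ := Finset.mem_image.mp hx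
        obtain ⟨j, _, rfl⟩ := Finset.mem_image.mp hy
        have := hsep i j fun e => hxy (by rw [e])
        rw [dist_eq_norm] at this
        nlinarith)
      (fun x hx y hy hxy => by
        obtain ⟨i, _, rfl⟩ := Finset.mem_image.mp hx
        obtain ⟨j, _, rfl⟩ := Finset.mem_image.mp hy
        have hne : j ≠ i := by rintro rfl; simp at hxy
        rcases hgap j i hne with ⟨rfl, rfl⟩ | ⟨rfl, rfl⟩ | k
        · exact h1
        · rw [inner_swap] at hxy; linarith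
        · rw [abs_of_pos hxy] at k
          exact far hv hw (hle _) (hle _) (h _).le (h _).le (hle _) (hle _) hg h2 k)
      (by
        rintro ⟨x, s, hxs⟩
        refine hinf ⟨x, s, fun j hj => ?_⟩
        have := hxs (c j) (Finset.mem_coe.mpr (Finset.mem_image_of_mem _
          (Finset.mem_filter.mpr ⟨Finset.mem_univ _, hj⟩)))
        rwa [sub_zero] at this) (c A)
    have k1 := h A
    have k2 := ht A hPA
    rw [e] at k1
    nlinarith [norm_nonneg (off 0 v (c A))]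
  have core2 : ∀ q w : V, ‖w‖ = 1 → (∀ j, ‖off q w (c j)‖ < 1) → 0 < inner ℝ w (c A - c B) →
      False := by
    intro q w hw h h1
    have hne : sw g ≠ g := by
      intro e
      rw [e] at hg
      norm_num at hg
    rcases lt_or_gt_of_ne (inner_ne_zero hw (h _).le (h _).le (hsep _ _ hne)) with k | k
    · refine core (ι q) (ι w) (by rw [ι.norm_map, hw]) (fun j => by rw [tr]; exact h _) ?_ ?_
      · have : c A - c B = ι (c A - c B) := by rw [map_sub, hι, hι, hA, hB]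
        rwa [this, ι.inner_map_map]
      · have : c g - c (sw g) = ι (c (sw g) - c g) := by rw [map_sub, hι, hι, hsw]
        rw [this, ι.inner_map_map, inner_swap]
        linarith
    · exact core q w hw h h1 k
  have yes : ∀ j, P j → ∃ q w : V, ‖w‖ = 1 ∧ ∀ i, i ≠ j → ‖off q w (c i)‖ < 1 := by
    intro j hj
    obtain ⟨x, s, hxs⟩ := hmin j hj
    obtain ⟨q, w, hw, k, -⟩ := descent (S := (Finset.univ.erase j).image c) (p := 0) hv (ρ := 1)
      (fun x hx => by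
        obtain ⟨i, _, rfl⟩ := Finset.mem_image.mp hx
        exact hle2 i)
      ⟨x, s, by
        rintro y ⟨hy, hy1⟩
        obtain ⟨i, hi, rfl⟩ := Finset.mem_image.mp hy
        rw [sub_zero]
        refine hxs i ?_ (Finset.mem_erase.mp hi).1
        by_contra hn
        linarith [hu i hn]⟩
    refine ⟨q, w, hw, fun i hi => ?_⟩
    have := k _ (Finset.mem_image_of_mem _ (Finset.mem_erase.mpr ⟨hi, Finset.mem_univ _⟩))
    nlinarith [norm_nonneg (off q w (c i))]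
  refine scale c hsep (fun q w hw h => ?_) fun j => ?_
  · rcases lt_or_gt_of_ne (inner_ne_zero hw (h B).le (h A).le (dist_comm (c A) (c B) ▸ hAB))
      with k | k
    · exact core2 q (-w) (by rwa [norm_neg]) (fun j => by rw [off_neg]; exact h j)
        (by rw [inner_neg_left]; linarith)
    · exact core2 q w hw h k
  · rcases hP j with k | k
    · exact yes j k
    · obtain ⟨q, w, hw, h⟩ := yes _ k
      refine ⟨ι q, ι w, by rw [ι.norm_map, hw], fun i hi => ?_⟩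
      rw [tr]
      exact h _ fun e => hi (by rw [← hsw i, e, hsw])

end Pool.Agent.MP_a382a5_co

end
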